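import Mathlib
import Pool.Agent.Helper19.PS.Defs

/-!
# PQ-3: rigidity of pencils of skew matrices
-/

open MeasureTheory Set Metric Filter Module Matrix
open scoped NNReal Topology RealInnerProductSpace ENNReal Real

namespace Pool.Agent.Helper19.PQ

open Pool.Agent.Helper19.PS (NP)

private theorem pq3_sum {ι : Type*} [Fintype ι] [DecidableEq ι] (N : Matrix ι ι ℝ) (hN : Nᵀ = -N)
    (htr : trace (Nᵀ * N) = 2) (ξ : ι → ℝ) (hξ : ξ ⬝ᵥ ξ = 1) :
    ∑ i, ∑ j, (N i j - ((N *ᵥ ξ) i * ξ j - ξ i * (N *ᵥ ξ) j)) ^ 2 =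
      2 - 2 * ((N *ᵥ ξ) ⬝ᵥ (N *ᵥ ξ)) := by
  set c : ι → ℝ := N *ᵥ ξ with hc
  have hsk : ∀ i j, N j i = -N i j := by
    intro i j
    have := congrFun (congrFun hN i) j
    simpa using this
  have s1 : ∑ i, ∑ j, N i j ^ 2 = 2 := by
    rw [← htr, trace, Finset.sum_comm]
    refine Finset.sum_congr rfl fun j _ => ?_
    rw [Matrix.diag_apply, Matrix.mul_apply]
    refine Finset.sum_congr rfl fun i _ => ?_
    rw [Matrix.transpose_apply]
    ring
  have s2 : ∑ i, ∑ j, N i j * (c i * ξ j) = c ⬝ᵥ c := by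
    unfold dotProduct
    refine Finset.sum_congr rfl fun i _ => ?_
    have h1 : c i = ∑ j, N i j * ξ j := rfl
    calc ∑ j, N i j * (c i * ξ j) = c i * ∑ j, N i j * ξ j := by
          rw [Finset.mul_sum]
          refine Finset.sum_congr rfl fun j _ => ?_
          ring
      _ = c i * c i := by rw [← h1]
  have s3 : ∑ i, ∑ j, N i j * (ξ i * c j) = -(c ⬝ᵥ c) := by
    rw [Finset.sum_comm]
    unfold dotProduct
    rw [← Finset.sum_neg_distrib]
    refine Finset.sum_congr rfl fun j _ => ?_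
    have h1 : c j = ∑ i, N j i * ξ i := rfl
    calc ∑ i, N i j * (ξ i * c j) = -(c j * ∑ i, N j i * ξ i) := by
          rw [Finset.mul_sum, ← Finset.sum_neg_distrib]
          refine Finset.sum_congr rfl fun i _ => ?_
          rw [hsk i j]
          ring
      _ = -(c j * c j) := by rw [← h1]
  have s4 : ∑ i, ∑ j, (c i) ^ 2 * (ξ j) ^ 2 = c ⬝ᵥ c := by
    have h1 : ∑ i, ∑ j, (c i) ^ 2 * (ξ j) ^ 2 = (∑ i, c i ^ 2) * ∑ j, ξ j ^ 2 := by
      rw [Finset.sum_mul_sum]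
    have h2 : ∑ j, ξ j ^ 2 = ξ ⬝ᵥ ξ := by
      unfold dotProduct
      exact Finset.sum_congr rfl fun j _ => by ring
    have h3 : ∑ j, c j ^ 2 = c ⬝ᵥ c := by
      unfold dotProduct
      exact Finset.sum_congr rfl fun j _ => by ring
    rw [h1, h2, h3, hξ, mul_one]
  have s5 : ∑ i, ∑ j, (ξ i) ^ 2 * (c j) ^ 2 = c ⬝ᵥ c := by
    rw [Finset.sum_comm, ← s4]
    refine Finset.sum_congr rfl fun j _ => Finset.sum_congr rfl fun i _ => ?_
    ring
  have hc0 : ∑ i, c i * ξ i = 0 := by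
    have h1 : ∑ i, c i * ξ i = ∑ i, ∑ j, N i j * (ξ i * ξ j) := by
      refine Finset.sum_congr rfl fun i _ => ?_
      have h1 : c i = ∑ j, N i j * ξ j := rfl
      rw [h1, Finset.sum_mul]
      refine Finset.sum_congr rfl fun j _ => ?_
      ring
    have h2 : ∑ i, ∑ j, N i j * (ξ i * ξ j) = -∑ i, ∑ j, N i j * (ξ i * ξ j) := by
      conv_lhs => rw [Finset.sum_comm]
      rw [← Finset.sum_neg_distrib]
      refine Finset.sum_congr rfl fun i _ => ?_
      rw [← Finset.sum_neg_distrib]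
      refine Finset.sum_congr rfl fun j _ => ?_
      rw [hsk i j]
      ring
    linarith
  have s6 : ∑ i, ∑ j, (c i * ξ i) * (c j * ξ j) = 0 := by
    rw [← Finset.sum_mul_sum, hc0, zero_mul]
  have hexp : ∀ i j, (N i j - (c i * ξ j - ξ i * c j)) ^ 2 =
      N i j ^ 2 - 2 * (N i j * (c i * ξ j)) + 2 * (N i j * (ξ i * c j)) +
        (c i) ^ 2 * (ξ j) ^ 2 + (ξ i) ^ 2 * (c j) ^ 2 - 2 * ((c i * ξ i) * (c j * ξ j)) := by
    intro i j
    ring
  simp only [hexp, Finset.sum_add_distrib, Finset.sum_sub_distrib, ← Finset.mul_sum]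
  simp only [← Finset.mul_sum] at s4 s5 s6
  rw [s1, s2, s3, s4, s5, s6]
  ring

/-- a skew matrix with `½ |N|² = 1` and `|N ξ| ≥ 1` is `c ∧ ξ`. -/
theorem skew_norm {ι : Type*} [Fintype ι] [DecidableEq ι] (N : Matrix ι ι ℝ) (hN : Nᵀ = -N)
    (htr : trace (Nᵀ * N) = 2) (ξ : ι → ℝ) (hξ : ξ ⬝ᵥ ξ = 1) :
    (N *ᵥ ξ) ⬝ᵥ (N *ᵥ ξ) ≤ 1 ∧
      ((N *ᵥ ξ) ⬝ᵥ (N *ᵥ ξ) = 1 → N = vecMulVec (N *ᵥ ξ) ξ - vecMulVec ξ (N *ᵥ ξ)) := by
  have h := pq3_sum N hN htr ξ hξ
  have hnn : ∀ i, 0 ≤ ∑ j, (N i j - ((N *ᵥ ξ) i * ξ j - ξ i * (N *ᵥ ξ) j)) ^ 2 := fun i =>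
    Finset.sum_nonneg fun j _ => sq_nonneg _
  refine ⟨?_, fun h1 => ?_⟩
  · have h2 := Finset.sum_nonneg fun i (_ : i ∈ Finset.univ) => hnn i
    linarith
  · rw [h1] at h
    have h2 : ∑ i, ∑ j, (N i j - ((N *ᵥ ξ) i * ξ j - ξ i * (N *ᵥ ξ) j)) ^ 2 = 0 := by
      rw [h]
      ring
    ext i j
    have h3 := (Finset.sum_eq_zero_iff_of_nonneg fun i _ => hnn i).1 h2 i (Finset.mem_univ i)
    have h4 := (Finset.sum_eq_zero_iff_of_nonneg fun j _ => sq_nonneg _).1 h3 j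
      (Finset.mem_univ j)
    have h5 := pow_eq_zero_iff (two_ne_zero) |>.1 h4
    rw [Matrix.sub_apply, vecMulVec_apply, vecMulVec_apply]
    linarith

theorem pencil_rigid {d : ℕ} (hd : 2 ≤ d) (A : Matrix (Fin d) (Fin d) ℝ) (a : Fin d → ℝ)
    (ξ : Fin 2 ⊕ Fin d → ℝ) (hξ : ξ ≠ 0) (c : Fin d → Fin 2 ⊕ Fin d → ℝ)
    (h : ∀ k, NP A (-1) a k = vecMulVec (c k) ξ - vecMulVec ξ (c k)) :
    ∃ κ : ℝ, A = κ • (1 : Matrix (Fin d) (Fin d) ℝ) := by
  have e1 : ∀ k i j, 0 = c k (.inr i) * ξ (.inr j) - ξ (.inr i) * c k (.inr j) := by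
    intro k i j
    have := congrFun (congrFun (h k) (.inr i)) (.inr j)
    simpa [NP, vecMulVec_apply] using this
  have e2 : ∀ k j, (-1 : Matrix (Fin d) (Fin d) ℝ) k j =
      c k (.inr j) * ξ (.inl 1) - ξ (.inr j) * c k (.inl 1) := by
    intro k j
    have := congrFun (congrFun (h k) (.inr j)) (.inl 1)
    simpa [NP, vecMulVec_apply] using this
  have e3 : ∀ k j, A k j = c k (.inr j) * ξ (.inl 0) - ξ (.inr j) * c k (.inl 0) := by
    intro k j
    have := congrFun (congrFun (h k) (.inr j)) (.inl 0)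
    simpa [NP, vecMulVec_apply] using this
  by_cases hx : ∃ j, ξ (.inr j) ≠ 0
  · exfalso
    obtain ⟨j0, hj0⟩ := hx
    have hl : ∀ k i, c k (.inr i) = c k (.inr j0) / ξ (.inr j0) * ξ (.inr i) := by
      intro k i
      have := e1 k i j0
      field_simp
      linarith
    have hmu : ∀ k j, (-1 : Matrix (Fin d) (Fin d) ℝ) k j =
        ξ (.inr j) * (c k (.inr j0) / ξ (.inr j0) * ξ (.inl 1) - c k (.inl 1)) := by
      intro k j
      rw [e2, hl k j]
      ring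
    have hne : ∀ k, ξ (.inr k) ≠ 0 := by
      intro k hk
      have := hmu k k
      rw [hk, zero_mul] at this
      simp at this
    have hmk : ∀ k, c k (.inr j0) / ξ (.inr j0) * ξ (.inl 1) - c k (.inl 1) ≠ 0 := by
      intro k hk
      have := hmu k k
      rw [hk, mul_zero] at this
      simp at this
    have h01 : (⟨0, by omega⟩ : Fin d) ≠ ⟨1, by omega⟩ := by simp
    have := hmu ⟨0, by omega⟩ ⟨1, by omega⟩
    rw [Matrix.neg_apply, Matrix.one_apply_ne h01, neg_zero] at this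
    exact mul_ne_zero (hne _) (hmk _) this.symm
  · push Not at hx
    have e2' : ∀ k j, (-1 : Matrix (Fin d) (Fin d) ℝ) k j = c k (.inr j) * ξ (.inl 1) := by
      intro k j
      rw [e2, hx j]
      ring
    have e3' : ∀ k j, A k j = c k (.inr j) * ξ (.inl 0) := by
      intro k j
      rw [e3, hx j]
      ring
    have h1 : ξ (.inl 1) ≠ 0 := by
      intro h0
      have := e2' ⟨0, by omega⟩ ⟨0, by omega⟩
      rw [h0, mul_zero] at this
      simp at this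
    refine ⟨-(ξ (.inl 0) / ξ (.inl 1)), ?_⟩
    ext k j
    rw [e3' k j]
    have h2 := e2' k j
    have h3 : c k (.inr j) = (-1 : Matrix (Fin d) (Fin d) ℝ) k j / ξ (.inl 1) := by
      rw [h2]
      field_simp
    rw [h3, Matrix.neg_apply, Matrix.smul_apply, smul_eq_mul]
    field_simp

end Pool.Agent.Helper19.PQ
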