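import Pool.Agent.Helper19.PQ.St.Stubs

/-!
# PQ-7: consequences of the symmetry of the second derivative
-/

open MeasureTheory Set Metric Filter Module Matrix
open scoped NNReal Topology RealInnerProductSpace ENNReal Real ContDiff Manifold

namespace Pool.Agent.Helper19.PQ

open Spec

variable {E : Type*} [NormedAddCommGroup E] [InnerProductSpace ℝ E] [FiniteDimensional ℝ E]

omit [InnerProductSpace ℝ E] [FiniteDimensional ℝ E] in
private theorem pq7_nhds {x : E} (hx : x ≠ 0) : ({0}ᶜ : Set E) ∈ 𝓝 x :=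
  isOpen_compl_singleton.mem_nhds hx

/-- the derivative of the formula `fderiv_eq`. -/
private theorem pq7_deriv {V : E → E} {κ : E → ℝ} (h : Umb V κ) (hfr : 4 ≤ finrank ℝ E) {x : E}
    (hx : x ≠ 0) (δ ε : E) :
    ∃ r : ℝ, fderiv ℝ (fderiv ℝ V) x ε δ = (fderiv ℝ κ x ε) • δ
      - (r * ⟪x, δ⟫ + κ x / ‖x‖ ^ 2 * ⟪ε, δ⟫) • x - (κ x / ‖x‖ ^ 2 * ⟪x, δ⟫) • ε
      + ⟪fderiv ℝ V x ε, δ⟫ • BV V κ x + ⟪V x, δ⟫ • fderiv ℝ (BV V κ) x ε := by
  have hfr3 : 3 ≤ finrank ℝ E := by omega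
  have hV2 : ContDiffAt ℝ 2 V x := h.smooth.contDiffAt (pq7_nhds hx)
  have hV1 : HasFDerivAt V (fderiv ℝ V x) x := (hV2.differentiableAt (by norm_num)).hasFDerivAt
  have hDV : HasFDerivAt (fderiv ℝ V) (fderiv ℝ (fderiv ℝ V) x) x :=
    ((hV2.fderiv_right (m := 1) (by norm_num)).differentiableAt (by norm_num)).hasFDerivAt
  have hκ : HasFDerivAt κ (fderiv ℝ κ x) x :=
    (((h.contDiffOn_kap hfr3).contDiffAt (pq7_nhds hx)).differentiableAt
      (by norm_num)).hasFDerivAt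
  have hB : HasFDerivAt (BV V κ) (fderiv ℝ (BV V κ) x) x :=
    (((h.contDiffOn_BV hfr3).contDiffAt (pq7_nhds hx)).differentiableAt
      (by norm_num)).hasFDerivAt
  have hx2 : ‖x‖ ^ 2 ≠ 0 := pow_ne_zero 2 (norm_ne_zero_iff.2 hx)
  have hq0 : DifferentiableAt ℝ (fun z : E => κ z / ‖z‖ ^ 2) x :=
    by
    have h1 : DifferentiableAt ℝ (fun z : E => ‖z‖ ^ 2) x := differentiableAt_id.norm_sq ℝ
    have h2 : (fun z : E => κ z / ‖z‖ ^ 2) = fun z : E => κ z * (‖z‖ ^ 2)⁻¹ := by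
      funext z
      rw [div_eq_mul_inv]
    rw [h2]
    exact hκ.differentiableAt.mul (h1.fun_inv hx2)
  have hq : HasFDerivAt (fun z : E => κ z / ‖z‖ ^ 2)
      (fderiv ℝ (fun z : E => κ z / ‖z‖ ^ 2) x) x := hq0.hasFDerivAt
  have hin : HasFDerivAt (fun z : E => ⟪z, δ⟫) (innerSL ℝ δ) x := by
    have h1 := (innerSL ℝ δ).hasFDerivAt (x := x)
    refine h1.congr_of_eventuallyEq (Eventually.of_forall fun z => ?_)
    rw [innerSL_apply_apply, real_inner_comm]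
  have hVin : HasFDerivAt (fun z : E => ⟪V z, δ⟫) ((innerSL ℝ δ).comp (fderiv ℝ V x)) x := by
    have h1 := ((innerSL ℝ δ).hasFDerivAt (x := V x)).comp x hV1
    refine h1.congr_of_eventuallyEq (Eventually.of_forall fun z => ?_)
    show ⟪V z, δ⟫ = innerSL ℝ δ (V z)
    rw [innerSL_apply_apply, real_inner_comm]
  have hR := ((hκ.smul_const δ).sub ((hq.mul hin).smul (hasFDerivAt_id x))).add (hVin.smul hB)
  have hL : HasFDerivAt (fun z => fderiv ℝ V z δ)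
      ((fderiv ℝ (fderiv ℝ V) x).flip δ) x := by
    have h1 := hDV.clm_apply (hasFDerivAt_const δ x)
    simpa using h1
  have hev : (fun z => fderiv ℝ V z δ) =ᶠ[𝓝 x] fun z =>
      κ z • δ - (κ z / ‖z‖ ^ 2 * ⟪z, δ⟫) • id z + ⟪V z, δ⟫ • BV V κ z := by
    filter_upwards [pq7_nhds hx] with z hz
    exact h.fderiv_eq hz δ
  have hu := hL.unique (hR.congr_of_eventuallyEq hev)
  refine ⟨fderiv ℝ (fun z : E => κ z / ‖z‖ ^ 2) x ε, ?_⟩
  have h2 := congrArg (fun L : E →L[ℝ] E => L ε) hu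
  simp only [ContinuousLinearMap.flip_apply] at h2
  rw [h2]
  simp only [_root_.add_apply, _root_.sub_apply, Pi.mul_apply,
    ContinuousLinearMap.smulRight_apply, _root_.smul_apply,
    ContinuousLinearMap.comp_apply, innerSL_apply_apply, id, ContinuousLinearMap.id_apply,
    smul_eq_mul, real_inner_comm δ]
  module

omit [FiniteDimensional ℝ E] in
private theorem pq7_symm {V : E → E} {κ : E → ℝ} (h : Umb V κ) {x : E} (hx : x ≠ 0) (δ ε : E) :
    fderiv ℝ (fderiv ℝ V) x ε δ = fderiv ℝ (fderiv ℝ V) x δ ε := by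
  have hV2 : ContDiffAt ℝ 2 V x := h.smooth.contDiffAt (pq7_nhds hx)
  exact (hV2.isSymmSndFDerivAt (by simp)).eq ε δ

theorem Umb.fderiv_kap {V : E → E} {κ : E → ℝ} (h : Umb V κ) (hfr : 4 ≤ finrank ℝ E) {x : E}
    (hx : x ≠ 0) {Y : E} (hY : ⟪x, Y⟫ = 0) (hYV : ⟪V x, Y⟫ = 0) : fderiv ℝ κ x Y = 0 := by
  classical
  -- a vector orthogonal to `x`, `V x`, `Y`
  obtain ⟨Z, hZ0, hZx, hZV, hZY⟩ : ∃ Z : E, Z ≠ 0 ∧ ⟪x, Z⟫ = 0 ∧ ⟪V x, Z⟫ = 0 ∧ ⟪Y, Z⟫ = 0 := by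
    let S : Submodule ℝ E := Submodule.span ℝ {x, V x, Y}
    have hS : finrank ℝ S ≤ 3 := by
      have h1 := finrank_span_le_card (R := ℝ) ({x, V x, Y} : Set E)
      have h2 : ({x, V x, Y} : Set E).toFinset.card ≤ 3 := by
        have : ({x, V x, Y} : Set E).toFinset = ({x, V x, Y} : Finset E) := by ext; simp
        rw [this]
        exact Finset.card_le_three
      exact h1.trans h2
    have hSo : 0 < finrank ℝ (Sᗮ : Submodule ℝ E) := by
      have := S.finrank_add_finrank_orthogonal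
      omega
    obtain ⟨⟨Z, hZ⟩, hZ0⟩ := (finrank_pos_iff_exists_ne_zero (R := ℝ)).1 hSo
    have hZ' := (Submodule.mem_orthogonal S Z).1 hZ
    refine ⟨Z, fun h0 => hZ0 (Subtype.ext h0), hZ' _ (Submodule.subset_span (by simp)),
      hZ' _ (Submodule.subset_span (by simp)), hZ' _ (Submodule.subset_span (by simp))⟩
  obtain ⟨r1, h1⟩ := pq7_deriv h hfr hx Y Z
  obtain ⟨r2, h2⟩ := pq7_deriv h hfr hx Z Y
  have h3 := pq7_symm h hx Y Z
  rw [h1, h2, h.umb x hx Z hZx hZV, h.umb x hx Y hY hYV] at h3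
  simp only [hY, hYV, hZx, hZV, hZY, real_inner_comm Y Z, inner_smul_left, mul_zero,
    zero_smul, add_zero, sub_zero, RCLike.conj_to_real] at h3
  have h4 := congrArg (fun w => ⟪w, Z⟫) h3
  simp only [inner_smul_left, RCLike.conj_to_real, hZY, mul_zero] at h4
  have h5 : ⟪Z, Z⟫ ≠ 0 := by
    rw [real_inner_self_eq_norm_sq]
    exact pow_ne_zero 2 (norm_ne_zero_iff.2 hZ0)
  exact (mul_eq_zero.1 h4.symm).resolve_right h5

theorem Umb.fderiv_BV {V : E → E} {κ : E → ℝ} (h : Umb V κ) (hfr : 4 ≤ finrank ℝ E) {x : E}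
    (hx : x ≠ 0) {Y : E} (hY : ⟪x, Y⟫ = 0) (hYV : ⟪V x, Y⟫ = 0) :
    fderiv ℝ (BV V κ) x Y = fderiv ℝ κ x (V x) • Y + ⟪BV V κ x, Y⟫ • BV V κ x := by
  obtain ⟨r1, h1⟩ := pq7_deriv h hfr hx (V x) Y
  obtain ⟨r2, h2⟩ := pq7_deriv h hfr hx Y (V x)
  have h3 := pq7_symm h hx (V x) Y
  have hk : fderiv ℝ κ x Y = 0 := Umb.fderiv_kap h hfr hx hY hYV
  have hVV : ⟪V x, V x⟫ = 1 := by
    rw [real_inner_self_eq_norm_sq, h.unit x hx]
    norm_num
  have hxV : ⟪x, V x⟫ = 0 := h.tang x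
  have hYV' : ⟪Y, V x⟫ = 0 := by rw [real_inner_comm]; exact hYV
  have hDV : fderiv ℝ V x (V x) = BV V κ x + κ x • V x := by
    unfold BV
    abel
  rw [h1, h2, h.umb x hx Y hY hYV, hk, hDV] at h3
  simp only [hY, hYV, hYV', hxV, hVV, inner_smul_left, inner_add_left, mul_zero,
    zero_smul, add_zero, sub_zero, zero_add, one_smul, RCLike.conj_to_real] at h3
  exact h3

end Pool.Agent.Helper19.PQ
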